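import Pool.Agent.Strip051.Box.C2
import Pool.Agent.Strip051.Box.S30
import Pool.Agent.Strip051.LB.Fc.F2

/-! # LINE tight chart ChB00V2_pm_011 -/

namespace Pool.Agent.Strip051.LB.ChB00V2_pm_011

open Pool.Agent.Strip051.Box Pool.Agent.Strip051.Box2

open Pool.Agent.Strip051.LB.Fc Pool.Agent.Strip051.LB.Fc.F2 Pool.Agent.Strip051.LB.Fn Pool.Agent.Strip051.LB.Fn.F2

/-- coordinates of a point of the box -/
def In (b : Bx) (E : Pt) (x1 x2 : ℝ) : Prop :=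
  (S : ℝ) * x1 = ((b.p1 : ℝ) - b.n1) + b.q1 * E.e1 ∧ (S : ℝ) * x2 = ((b.p2 : ℝ) - b.n2) + b.q2 * E.e2

variable {b : Bx} {E : Pt} {x1 x2 : ℝ}

def t0 (b : Bx) : TM := X1 b
noncomputable def v0 (x1 _x2 : ℝ) : ℝ := x1
theorem h0 (h : In b E x1 x2) : Enc S E (t0 b) (v0 x1 x2) := enc_X1 h.1

def t1 (b : Bx) : TM := X2 b
noncomputable def v1 (_x1 x2 : ℝ) : ℝ := x2
theorem h1 (h : In b E x1 x2) : Enc S E (t1 b) (v1 x1 x2) := enc_X2 h.2

def t2 (_b : Bx) : TM := tconst 1859775393 0 1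
noncomputable def v2 (_x1 _x2 : ℝ) : ℝ := Real.sqrt ((3 : ℕ) : ℝ)
theorem h2 (_h : In b E x1 x2) : Enc S E (t2 b) (v2 x1 x2) := enc_sqrtn E (by decide) (by decide)

def t3 (b : Bx) : TM := tscale 1 2 (t2 b)
noncomputable def v3 (x1 x2 : ℝ) : ℝ := ((1 : ℕ) : ℝ) / ((2 : ℕ) : ℝ) * v2 x1 x2
theorem h3 (h : In b E x1 x2) : Enc S E (t3 b) (v3 x1 x2) := enc_scale 1 (by norm_num) (h2 h)

def t4 (b : Bx) : TM := tsq S (t0 b)
noncomputable def v4 (x1 x2 : ℝ) : ℝ := (v0 x1 x2) ^ 2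
theorem h4 (h : In b E x1 x2) : Enc S E (t4 b) (v4 x1 x2) := enc_sq hS (h0 h)

def t5 (_b : Bx) : TM := tconst (Nat.mul 1 S) 0 0
noncomputable def v5 (_x1 _x2 : ℝ) : ℝ := ((1 : ℕ) : ℝ)
theorem h5 (_h : In b E x1 x2) : Enc S E (t5 b) (v5 x1 x2) := enc_nc E 1

def t6 (b : Bx) : TM := tsub (t5 b) (t4 b)
noncomputable def v6 (x1 x2 : ℝ) : ℝ := v5 x1 x2 - v4 x1 x2
theorem h6 (h : In b E x1 x2) : Enc S E (t6 b) (v6 x1 x2) := enc_sub (h5 h) (h4 h)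

def t7 (b : Bx) : TM := tsqrt S (t6 b)
noncomputable def v7 (x1 x2 : ℝ) : ℝ := Real.sqrt (v6 x1 x2)
theorem h7 (h : In b E x1 x2) : Enc S E (t7 b) (v7 x1 x2) := enc_sqrt hS (h6 h)

def t9 (_b : Bx) : TM := tconst (Nat.div (Nat.mul 1 S) 2) 0 1
noncomputable def v9 (_x1 _x2 : ℝ) : ℝ := ((1 : ℕ) : ℝ) / ((2 : ℕ) : ℝ)
theorem h9 (_h : In b E x1 x2) : Enc S E (t9 b) (v9 x1 x2) := enc_rat E 1 (by norm_num)

def t10 (b : Bx) : TM := tmul S (t7 b) (t3 b)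
noncomputable def v10 (x1 x2 : ℝ) : ℝ := v7 x1 x2 * v3 x1 x2
theorem h10 (h : In b E x1 x2) : Enc S E (t10 b) (v10 x1 x2) := enc_mul hS (h7 h) (h3 h)

def t11 (b : Bx) : TM := tneg (t10 b)
noncomputable def v11 (x1 x2 : ℝ) : ℝ := -(v10 x1 x2)
theorem h11 (h : In b E x1 x2) : Enc S E (t11 b) (v11 x1 x2) := enc_neg (h10 h)

def t12 (b : Bx) : TM := tscale 1 2 (t0 b)
noncomputable def v12 (x1 x2 : ℝ) : ℝ := ((1 : ℕ) : ℝ) / ((2 : ℕ) : ℝ) * v0 x1 x2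
theorem h12 (h : In b E x1 x2) : Enc S E (t12 b) (v12 x1 x2) := enc_scale 1 (by norm_num) (h0 h)

def t13 (b : Bx) : TM := tsub (t11 b) (t12 b)
noncomputable def v13 (x1 x2 : ℝ) : ℝ := v11 x1 x2 - v12 x1 x2
theorem h13 (h : In b E x1 x2) : Enc S E (t13 b) (v13 x1 x2) := enc_sub (h11 h) (h12 h)

def t14 (b : Bx) : TM := tmul S (t0 b) (t3 b)
noncomputable def v14 (x1 x2 : ℝ) : ℝ := v0 x1 x2 * v3 x1 x2
theorem h14 (h : In b E x1 x2) : Enc S E (t14 b) (v14 x1 x2) := enc_mul hS (h0 h) (h3 h)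

def t16 (b : Bx) : TM := tscale 1 2 (t7 b)
noncomputable def v16 (x1 x2 : ℝ) : ℝ := ((1 : ℕ) : ℝ) / ((2 : ℕ) : ℝ) * v7 x1 x2
theorem h16 (h : In b E x1 x2) : Enc S E (t16 b) (v16 x1 x2) := enc_scale 1 (by norm_num) (h7 h)

def t18 (b : Bx) : TM := tmul S (t13 b) (t2 b)
noncomputable def v18 (x1 x2 : ℝ) : ℝ := v13 x1 x2 * v2 x1 x2
theorem h18 (h : In b E x1 x2) : Enc S E (t18 b) (v18 x1 x2) := enc_mul hS (h13 h) (h2 h)

def t24 (b : Bx) : TM := tsub (t10 b) (t12 b)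
noncomputable def v24 (x1 x2 : ℝ) : ℝ := v10 x1 x2 - v12 x1 x2
theorem h24 (h : In b E x1 x2) : Enc S E (t24 b) (v24 x1 x2) := enc_sub (h10 h) (h12 h)

def t25 (b : Bx) : TM := tsub (t1 b) (t24 b)
noncomputable def v25 (x1 x2 : ℝ) : ℝ := v1 x1 x2 - v24 x1 x2
theorem h25 (h : In b E x1 x2) : Enc S E (t25 b) (v25 x1 x2) := enc_sub (h1 h) (h24 h)

def t26 (b : Bx) : TM := tsq S (t1 b)
noncomputable def v26 (x1 x2 : ℝ) : ℝ := (v1 x1 x2) ^ 2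
theorem h26 (h : In b E x1 x2) : Enc S E (t26 b) (v26 x1 x2) := enc_sq hS (h1 h)

def t27 (b : Bx) : TM := tsub (t5 b) (t26 b)
noncomputable def v27 (x1 x2 : ℝ) : ℝ := v5 x1 x2 - v26 x1 x2
theorem h27 (h : In b E x1 x2) : Enc S E (t27 b) (v27 x1 x2) := enc_sub (h5 h) (h26 h)

def t28 (b : Bx) : TM := tsqrt S (t27 b)
noncomputable def v28 (x1 x2 : ℝ) : ℝ := Real.sqrt (v27 x1 x2)
theorem h28 (h : In b E x1 x2) : Enc S E (t28 b) (v28 x1 x2) := enc_sqrt hS (h27 h)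

def t29 (b : Bx) : TM := tadd (t14 b) (t16 b)
noncomputable def v29 (x1 x2 : ℝ) : ℝ := v14 x1 x2 + v16 x1 x2
theorem h29 (h : In b E x1 x2) : Enc S E (t29 b) (v29 x1 x2) := enc_add (h14 h) (h16 h)

def t30 (b : Bx) : TM := tneg (t28 b)
noncomputable def v30 (x1 x2 : ℝ) : ℝ := -(v28 x1 x2)
theorem h30 (h : In b E x1 x2) : Enc S E (t30 b) (v30 x1 x2) := enc_neg (h28 h)

def t31 (b : Bx) : TM := tsub (t30 b) (t7 b)
noncomputable def v31 (x1 x2 : ℝ) : ℝ := v30 x1 x2 - v7 x1 x2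
theorem h31 (h : In b E x1 x2) : Enc S E (t31 b) (v31 x1 x2) := enc_sub (h30 h) (h7 h)

def t32 (b : Bx) : TM := tsub (t1 b) (t0 b)
noncomputable def v32 (x1 x2 : ℝ) : ℝ := v1 x1 x2 - v0 x1 x2
theorem h32 (h : In b E x1 x2) : Enc S E (t32 b) (v32 x1 x2) := enc_sub (h1 h) (h0 h)

def t33 (b : Bx) : TM := tmul S (t2 b) (t0 b)
noncomputable def v33 (x1 x2 : ℝ) : ℝ := v2 x1 x2 * v0 x1 x2
theorem h33 (h : In b E x1 x2) : Enc S E (t33 b) (v33 x1 x2) := enc_mul hS (h2 h) (h0 h)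

def t34 (b : Bx) : TM := tsub (t7 b) (t33 b)
noncomputable def v34 (x1 x2 : ℝ) : ℝ := v7 x1 x2 - v33 x1 x2
theorem h34 (h : In b E x1 x2) : Enc S E (t34 b) (v34 x1 x2) := enc_sub (h7 h) (h33 h)

def t35 (b : Bx) : TM := tadd (t5 b) (t7 b)
noncomputable def v35 (x1 x2 : ℝ) : ℝ := v5 x1 x2 + v7 x1 x2
theorem h35 (h : In b E x1 x2) : Enc S E (t35 b) (v35 x1 x2) := enc_add (h5 h) (h7 h)

def t36 (b : Bx) : TM := tmul S (t34 b) (t35 b)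
noncomputable def v36 (x1 x2 : ℝ) : ℝ := v34 x1 x2 * v35 x1 x2
theorem h36 (h : In b E x1 x2) : Enc S E (t36 b) (v36 x1 x2) := enc_mul hS (h34 h) (h35 h)

def t37 (b : Bx) : TM := tsub (t35 b) (t33 b)
noncomputable def v37 (x1 x2 : ℝ) : ℝ := v35 x1 x2 - v33 x1 x2
theorem h37 (h : In b E x1 x2) : Enc S E (t37 b) (v37 x1 x2) := enc_sub (h35 h) (h33 h)

def t38 (b : Bx) : TM := tinv S (t37 b)
noncomputable def v38 (x1 x2 : ℝ) : ℝ := (v37 x1 x2)⁻¹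
theorem h38 (h : In b E x1 x2) : Enc S E (t38 b) (v38 x1 x2) := enc_inv hS (h37 h)

def t39 (b : Bx) : TM := tmul S (t36 b) (t38 b)
noncomputable def v39 (x1 x2 : ℝ) : ℝ := v36 x1 x2 * v38 x1 x2
theorem h39 (h : In b E x1 x2) : Enc S E (t39 b) (v39 x1 x2) := enc_mul hS (h36 h) (h38 h)

def t42 (b : Bx) : TM := tmul S (t2 b) (t1 b)
noncomputable def v42 (x1 x2 : ℝ) : ℝ := v2 x1 x2 * v1 x1 x2
theorem h42 (h : In b E x1 x2) : Enc S E (t42 b) (v42 x1 x2) := enc_mul hS (h2 h) (h1 h)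

def t43 (b : Bx) : TM := tsub (t42 b) (t28 b)
noncomputable def v43 (x1 x2 : ℝ) : ℝ := v42 x1 x2 - v28 x1 x2
theorem h43 (h : In b E x1 x2) : Enc S E (t43 b) (v43 x1 x2) := enc_sub (h42 h) (h28 h)

def t45 (b : Bx) : TM := tadd (t5 b) (t42 b)
noncomputable def v45 (x1 x2 : ℝ) : ℝ := v5 x1 x2 + v42 x1 x2
theorem h45 (h : In b E x1 x2) : Enc S E (t45 b) (v45 x1 x2) := enc_add (h5 h) (h42 h)

def t46 (b : Bx) : TM := tsub (t45 b) (t28 b)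
noncomputable def v46 (x1 x2 : ℝ) : ℝ := v45 x1 x2 - v28 x1 x2
theorem h46 (h : In b E x1 x2) : Enc S E (t46 b) (v46 x1 x2) := enc_sub (h45 h) (h28 h)

def t47 (b : Bx) : TM := tnat 2 (t46 b)
noncomputable def v47 (x1 x2 : ℝ) : ℝ := ((2 : ℕ) : ℝ) * v46 x1 x2
theorem h47 (h : In b E x1 x2) : Enc S E (t47 b) (v47 x1 x2) := enc_nat 2 (h46 h)

def t48 (b : Bx) : TM := tinv S (t47 b)
noncomputable def v48 (x1 x2 : ℝ) : ℝ := (v47 x1 x2)⁻¹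
theorem h48 (h : In b E x1 x2) : Enc S E (t48 b) (v48 x1 x2) := enc_inv hS (h47 h)

def t51 (b : Bx) : TM := tsq S (t31 b)
noncomputable def v51 (x1 x2 : ℝ) : ℝ := (v31 x1 x2) ^ 2
theorem h51 (h : In b E x1 x2) : Enc S E (t51 b) (v51 x1 x2) := enc_sq hS (h31 h)

def t52 (_b : Bx) : TM := tconst (Nat.mul 3 S) 0 0
noncomputable def v52 (_x1 _x2 : ℝ) : ℝ := ((3 : ℕ) : ℝ)
theorem h52 (_h : In b E x1 x2) : Enc S E (t52 b) (v52 x1 x2) := enc_nc E 3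

def t53 (b : Bx) : TM := tsub (t52 b) (t51 b)
noncomputable def v53 (x1 x2 : ℝ) : ℝ := v52 x1 x2 - v51 x1 x2
theorem h53 (h : In b E x1 x2) : Enc S E (t53 b) (v53 x1 x2) := enc_sub (h52 h) (h51 h)

def t54 (b : Bx) : TM := tsq S (t32 b)
noncomputable def v54 (x1 x2 : ℝ) : ℝ := (v32 x1 x2) ^ 2
theorem h54 (h : In b E x1 x2) : Enc S E (t54 b) (v54 x1 x2) := enc_sq hS (h32 h)

def t58 (b : Bx) : TM := tadd (t1 b) (t24 b)
noncomputable def v58 (x1 x2 : ℝ) : ℝ := v1 x1 x2 + v24 x1 x2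
theorem h58 (h : In b E x1 x2) : Enc S E (t58 b) (v58 x1 x2) := enc_add (h1 h) (h24 h)

def t61 (b : Bx) : TM := tadd (t28 b) (t29 b)
noncomputable def v61 (x1 x2 : ℝ) : ℝ := v28 x1 x2 + v29 x1 x2
theorem h61 (h : In b E x1 x2) : Enc S E (t61 b) (v61 x1 x2) := enc_add (h28 h) (h29 h)

def t62 (b : Bx) : TM := tinv S (t61 b)
noncomputable def v62 (x1 x2 : ℝ) : ℝ := (v61 x1 x2)⁻¹
theorem h62 (h : In b E x1 x2) : Enc S E (t62 b) (v62 x1 x2) := enc_inv hS (h61 h)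

def t63 (b : Bx) : TM := tmul S (t58 b) (t62 b)
noncomputable def v63 (x1 x2 : ℝ) : ℝ := v58 x1 x2 * v62 x1 x2
theorem h63 (h : In b E x1 x2) : Enc S E (t63 b) (v63 x1 x2) := enc_mul hS (h58 h) (h62 h)

def t65 (b : Bx) : TM := tneg (t29 b)
noncomputable def v65 (x1 x2 : ℝ) : ℝ := -(v29 x1 x2)
theorem h65 (h : In b E x1 x2) : Enc S E (t65 b) (v65 x1 x2) := enc_neg (h29 h)

def t66 (b : Bx) : TM := tsub (t65 b) (t7 b)
noncomputable def v66 (x1 x2 : ℝ) : ℝ := v65 x1 x2 - v7 x1 x2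
theorem h66 (h : In b E x1 x2) : Enc S E (t66 b) (v66 x1 x2) := enc_sub (h65 h) (h7 h)

def t68 (b : Bx) : TM := tadd (t31 b) (t66 b)
noncomputable def v68 (x1 x2 : ℝ) : ℝ := v31 x1 x2 + v66 x1 x2
theorem h68 (h : In b E x1 x2) : Enc S E (t68 b) (v68 x1 x2) := enc_add (h31 h) (h66 h)

def t69 (b : Bx) : TM := tmul S (t63 b) (t68 b)
noncomputable def v69 (x1 x2 : ℝ) : ℝ := v63 x1 x2 * v68 x1 x2
theorem h69 (h : In b E x1 x2) : Enc S E (t69 b) (v69 x1 x2) := enc_mul hS (h63 h) (h68 h)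

def t71 (b : Bx) : TM := tneg (t69 b)
noncomputable def v71 (x1 x2 : ℝ) : ℝ := -(v69 x1 x2)
theorem h71 (h : In b E x1 x2) : Enc S E (t71 b) (v71 x1 x2) := enc_neg (h69 h)

def t72 (b : Bx) : TM := tsub (t24 b) (t0 b)
noncomputable def v72 (x1 x2 : ℝ) : ℝ := v24 x1 x2 - v0 x1 x2
theorem h72 (h : In b E x1 x2) : Enc S E (t72 b) (v72 x1 x2) := enc_sub (h24 h) (h0 h)

def t74 (b : Bx) : TM := tadd (t32 b) (t72 b)
noncomputable def v74 (x1 x2 : ℝ) : ℝ := v32 x1 x2 + v72 x1 x2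
theorem h74 (h : In b E x1 x2) : Enc S E (t74 b) (v74 x1 x2) := enc_add (h32 h) (h72 h)

def t76 (b : Bx) : TM := tsub (t71 b) (t74 b)
noncomputable def v76 (x1 x2 : ℝ) : ℝ := v71 x1 x2 - v74 x1 x2
theorem h76 (h : In b E x1 x2) : Enc S E (t76 b) (v76 x1 x2) := enc_sub (h71 h) (h74 h)

def t77 (b : Bx) : TM := tadd (t7 b) (t28 b)
noncomputable def v77 (x1 x2 : ℝ) : ℝ := v7 x1 x2 + v28 x1 x2
theorem h77 (h : In b E x1 x2) : Enc S E (t77 b) (v77 x1 x2) := enc_add (h7 h) (h28 h)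

def t78 (b : Bx) : TM := tsub (t52 b) (t54 b)
noncomputable def v78 (x1 x2 : ℝ) : ℝ := v52 x1 x2 - v54 x1 x2
theorem h78 (h : In b E x1 x2) : Enc S E (t78 b) (v78 x1 x2) := enc_sub (h52 h) (h54 h)

def t79 (b : Bx) : TM := tsqrt S (t78 b)
noncomputable def v79 (x1 x2 : ℝ) : ℝ := Real.sqrt (v78 x1 x2)
theorem h79 (h : In b E x1 x2) : Enc S E (t79 b) (v79 x1 x2) := enc_sqrt hS (h78 h)

def t81 (_b : Bx) : TM := tconst (Nat.div (Nat.mul 3 S) 2) 0 1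
noncomputable def v81 (_x1 _x2 : ℝ) : ℝ := ((3 : ℕ) : ℝ) / ((2 : ℕ) : ℝ)
theorem h81 (_h : In b E x1 x2) : Enc S E (t81 b) (v81 x1 x2) := enc_rat E 3 (by norm_num)

def t82 (b : Bx) : TM := tadd (t79 b) (t81 b)
noncomputable def v82 (x1 x2 : ℝ) : ℝ := v79 x1 x2 + v81 x1 x2
theorem h82 (h : In b E x1 x2) : Enc S E (t82 b) (v82 x1 x2) := enc_add (h79 h) (h81 h)

def t84 (b : Bx) : TM := tadd (t3 b) (t32 b)
noncomputable def v84 (x1 x2 : ℝ) : ℝ := v3 x1 x2 + v32 x1 x2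
theorem h84 (h : In b E x1 x2) : Enc S E (t84 b) (v84 x1 x2) := enc_add (h3 h) (h32 h)

def t85 (b : Bx) : TM := tinv S (t84 b)
noncomputable def v85 (x1 x2 : ℝ) : ℝ := (v84 x1 x2)⁻¹
theorem h85 (h : In b E x1 x2) : Enc S E (t85 b) (v85 x1 x2) := enc_inv hS (h84 h)

def t89 (b : Bx) : TM := tsub (t79 b) (t18 b)
noncomputable def v89 (x1 x2 : ℝ) : ℝ := v79 x1 x2 - v18 x1 x2
theorem h89 (h : In b E x1 x2) : Enc S E (t89 b) (v89 x1 x2) := enc_sub (h79 h) (h18 h)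

def t90 (b : Bx) : TM := tinv S (t89 b)
noncomputable def v90 (x1 x2 : ℝ) : ℝ := (v89 x1 x2)⁻¹
theorem h90 (h : In b E x1 x2) : Enc S E (t90 b) (v90 x1 x2) := enc_inv hS (h89 h)

def t91 (b : Bx) : TM := tmul S (t74 b) (t90 b)
noncomputable def v91 (x1 x2 : ℝ) : ℝ := v74 x1 x2 * v90 x1 x2
theorem h91 (h : In b E x1 x2) : Enc S E (t91 b) (v91 x1 x2) := enc_mul hS (h74 h) (h90 h)

def t93 (b : Bx) : TM := tsub (t81 b) (t18 b)
noncomputable def v93 (x1 x2 : ℝ) : ℝ := v81 x1 x2 - v18 x1 x2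
theorem h93 (h : In b E x1 x2) : Enc S E (t93 b) (v93 x1 x2) := enc_sub (h81 h) (h18 h)

def t94 (b : Bx) : TM := tmul S (t72 b) (t93 b)
noncomputable def v94 (x1 x2 : ℝ) : ℝ := v72 x1 x2 * v93 x1 x2
theorem h94 (h : In b E x1 x2) : Enc S E (t94 b) (v94 x1 x2) := enc_mul hS (h72 h) (h93 h)

def t95 (b : Bx) : TM := tmul S (t72 b) (t91 b)
noncomputable def v95 (x1 x2 : ℝ) : ℝ := v72 x1 x2 * v91 x1 x2
theorem h95 (h : In b E x1 x2) : Enc S E (t95 b) (v95 x1 x2) := enc_mul hS (h72 h) (h91 h)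

def t97 (b : Bx) : TM := tsub (t82 b) (t95 b)
noncomputable def v97 (x1 x2 : ℝ) : ℝ := v82 x1 x2 - v95 x1 x2
theorem h97 (h : In b E x1 x2) : Enc S E (t97 b) (v97 x1 x2) := enc_sub (h82 h) (h95 h)

def t98 (b : Bx) : TM := tadd (t3 b) (t72 b)
noncomputable def v98 (x1 x2 : ℝ) : ℝ := v3 x1 x2 + v72 x1 x2
theorem h98 (h : In b E x1 x2) : Enc S E (t98 b) (v98 x1 x2) := enc_add (h3 h) (h72 h)

def t99 (b : Bx) : TM := tinv S (t98 b)
noncomputable def v99 (x1 x2 : ℝ) : ℝ := (v98 x1 x2)⁻¹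
theorem h99 (h : In b E x1 x2) : Enc S E (t99 b) (v99 x1 x2) := enc_inv hS (h98 h)

def t100 (b : Bx) : TM := tmul S (t85 b) (t99 b)
noncomputable def v100 (x1 x2 : ℝ) : ℝ := v85 x1 x2 * v99 x1 x2
theorem h100 (h : In b E x1 x2) : Enc S E (t100 b) (v100 x1 x2) := enc_mul hS (h85 h) (h99 h)

def t103 (b : Bx) : TM := tmul S (t97 b) (t85 b)
noncomputable def v103 (x1 x2 : ℝ) : ℝ := v97 x1 x2 * v85 x1 x2
theorem h103 (h : In b E x1 x2) : Enc S E (t103 b) (v103 x1 x2) := enc_mul hS (h97 h) (h85 h)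

def t104 (b : Bx) : TM := tmul S (t94 b) (t100 b)
noncomputable def v104 (x1 x2 : ℝ) : ℝ := v94 x1 x2 * v100 x1 x2
theorem h104 (h : In b E x1 x2) : Enc S E (t104 b) (v104 x1 x2) := enc_mul hS (h94 h) (h100 h)

def t106 (b : Bx) : TM := tsub (t103 b) (t104 b)
noncomputable def v106 (x1 x2 : ℝ) : ℝ := v103 x1 x2 - v104 x1 x2
theorem h106 (h : In b E x1 x2) : Enc S E (t106 b) (v106 x1 x2) := enc_sub (h103 h) (h104 h)

def t107 (b : Bx) : TM := kyq1_t (t77 b) (t32 b)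
noncomputable def v107 (x1 x2 : ℝ) : ℝ := kyq1_v (v77 x1 x2) (v32 x1 x2)
theorem h107 (h : In b E x1 x2) : Enc S E (t107 b) (v107 x1 x2) := kyq1_enc (h77 h) (h32 h)

def t108 (b : Bx) : TM := tadd (t77 b) (t79 b)
noncomputable def v108 (x1 x2 : ℝ) : ℝ := v77 x1 x2 + v79 x1 x2
theorem h108 (h : In b E x1 x2) : Enc S E (t108 b) (v108 x1 x2) := enc_add (h77 h) (h79 h)

def t109 (b : Bx) : TM := f1m_t (t32 b)
noncomputable def v109 (x1 x2 : ℝ) : ℝ := f1m_v (v32 x1 x2)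
theorem h109 (h : In b E x1 x2) : Enc S E (t109 b) (v109 x1 x2) := f1m_enc (h32 h)

def t110 (b : Bx) : TM := tsub (t77 b) (t109 b)
noncomputable def v110 (x1 x2 : ℝ) : ℝ := v77 x1 x2 - v109 x1 x2
theorem h110 (h : In b E x1 x2) : Enc S E (t110 b) (v110 x1 x2) := enc_sub (h77 h) (h109 h)

def t116 (b : Bx) : TM := tmul S (t76 b) (t107 b)
noncomputable def v116 (x1 x2 : ℝ) : ℝ := v76 x1 x2 * v107 x1 x2
theorem h116 (h : In b E x1 x2) : Enc S E (t116 b) (v116 x1 x2) := enc_mul hS (h76 h) (h107 h)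

def t117 (b : Bx) : TM := tinv S (t108 b)
noncomputable def v117 (x1 x2 : ℝ) : ℝ := (v108 x1 x2)⁻¹
theorem h117 (h : In b E x1 x2) : Enc S E (t117 b) (v117 x1 x2) := enc_inv hS (h108 h)

def t118 (b : Bx) : TM := tmul S (t116 b) (t117 b)
noncomputable def v118 (x1 x2 : ℝ) : ℝ := v116 x1 x2 * v117 x1 x2
theorem h118 (h : In b E x1 x2) : Enc S E (t118 b) (v118 x1 x2) := enc_mul hS (h116 h) (h117 h)

def t120 (b : Bx) : TM := tsub (t118 b) (t106 b)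
noncomputable def v120 (x1 x2 : ℝ) : ℝ := v118 x1 x2 - v106 x1 x2
theorem h120 (h : In b E x1 x2) : Enc S E (t120 b) (v120 x1 x2) := enc_sub (h118 h) (h106 h)

def t121 (b : Bx) : TM := tmul S (t7 b) (t1 b)
noncomputable def v121 (x1 x2 : ℝ) : ℝ := v7 x1 x2 * v1 x1 x2
theorem h121 (h : In b E x1 x2) : Enc S E (t121 b) (v121 x1 x2) := enc_mul hS (h7 h) (h1 h)

def t122 (b : Bx) : TM := tmul S (t28 b) (t0 b)
noncomputable def v122 (x1 x2 : ℝ) : ℝ := v28 x1 x2 * v0 x1 x2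
theorem h122 (h : In b E x1 x2) : Enc S E (t122 b) (v122 x1 x2) := enc_mul hS (h28 h) (h0 h)

def t124 (b : Bx) : TM := tadd (t121 b) (t122 b)
noncomputable def v124 (x1 x2 : ℝ) : ℝ := v121 x1 x2 + v122 x1 x2
theorem h124 (h : In b E x1 x2) : Enc S E (t124 b) (v124 x1 x2) := enc_add (h121 h) (h122 h)

def t125 (b : Bx) : TM := tinv S (t2 b)
noncomputable def v125 (x1 x2 : ℝ) : ℝ := (v2 x1 x2)⁻¹
theorem h125 (h : In b E x1 x2) : Enc S E (t125 b) (v125 x1 x2) := enc_inv hS (h2 h)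

def t126 (b : Bx) : TM := tmul S (t124 b) (t125 b)
noncomputable def v126 (x1 x2 : ℝ) : ℝ := v124 x1 x2 * v125 x1 x2
theorem h126 (h : In b E x1 x2) : Enc S E (t126 b) (v126 x1 x2) := enc_mul hS (h124 h) (h125 h)

def t127 (b : Bx) : TM := tsub (t126 b) (t9 b)
noncomputable def v127 (x1 x2 : ℝ) : ℝ := v126 x1 x2 - v9 x1 x2
theorem h127 (h : In b E x1 x2) : Enc S E (t127 b) (v127 x1 x2) := enc_sub (h126 h) (h9 h)

def t130 (b : Bx) : TM := tmul S (t63 b) (t0 b)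
noncomputable def v130 (x1 x2 : ℝ) : ℝ := v63 x1 x2 * v0 x1 x2
theorem h130 (h : In b E x1 x2) : Enc S E (t130 b) (v130 x1 x2) := enc_mul hS (h63 h) (h0 h)

def t133 (b : Bx) : TM := tsub (t7 b) (t130 b)
noncomputable def v133 (x1 x2 : ℝ) : ℝ := v7 x1 x2 - v130 x1 x2
theorem h133 (h : In b E x1 x2) : Enc S E (t133 b) (v133 x1 x2) := enc_sub (h7 h) (h130 h)

def t135 (b : Bx) : TM := tmul S (t133 b) (t125 b)
noncomputable def v135 (x1 x2 : ℝ) : ℝ := v133 x1 x2 * v125 x1 x2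
theorem h135 (h : In b E x1 x2) : Enc S E (t135 b) (v135 x1 x2) := enc_mul hS (h133 h) (h125 h)

def t137 (b : Bx) : TM := tsub (t32 b) (t3 b)
noncomputable def v137 (x1 x2 : ℝ) : ℝ := v32 x1 x2 - v3 x1 x2
theorem h137 (h : In b E x1 x2) : Enc S E (t137 b) (v137 x1 x2) := enc_sub (h32 h) (h3 h)

def t138 (b : Bx) : TM := tsub (t1 b) (t3 b)
noncomputable def v138 (x1 x2 : ℝ) : ℝ := v1 x1 x2 - v3 x1 x2
theorem h138 (h : In b E x1 x2) : Enc S E (t138 b) (v138 x1 x2) := enc_sub (h1 h) (h3 h)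

def t139 (b : Bx) : TM := tnat 2 (t29 b)
noncomputable def v139 (x1 x2 : ℝ) : ℝ := ((2 : ℕ) : ℝ) * v29 x1 x2
theorem h139 (h : In b E x1 x2) : Enc S E (t139 b) (v139 x1 x2) := enc_nat 2 (h29 h)

def t140 (b : Bx) : TM := tnat 2 (t63 b)
noncomputable def v140 (x1 x2 : ℝ) : ℝ := ((2 : ℕ) : ℝ) * v63 x1 x2
theorem h140 (h : In b E x1 x2) : Enc S E (t140 b) (v140 x1 x2) := enc_nat 2 (h63 h)

def t142 (b : Bx) : TM := tadd (t5 b) (t139 b)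
noncomputable def v142 (x1 x2 : ℝ) : ℝ := v5 x1 x2 + v139 x1 x2
theorem h142 (h : In b E x1 x2) : Enc S E (t142 b) (v142 x1 x2) := enc_add (h5 h) (h139 h)

def t143 (b : Bx) : TM := tmul S (t2 b) (t24 b)
noncomputable def v143 (x1 x2 : ℝ) : ℝ := v2 x1 x2 * v24 x1 x2
theorem h143 (h : In b E x1 x2) : Enc S E (t143 b) (v143 x1 x2) := enc_mul hS (h2 h) (h24 h)

def t144 (b : Bx) : TM := tsub (t143 b) (t29 b)
noncomputable def v144 (x1 x2 : ℝ) : ℝ := v143 x1 x2 - v29 x1 x2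
theorem h144 (h : In b E x1 x2) : Enc S E (t144 b) (v144 x1 x2) := enc_sub (h143 h) (h29 h)

def t145 (b : Bx) : TM := tadd (t2 b) (t63 b)
noncomputable def v145 (x1 x2 : ℝ) : ℝ := v2 x1 x2 + v63 x1 x2
theorem h145 (h : In b E x1 x2) : Enc S E (t145 b) (v145 x1 x2) := enc_add (h2 h) (h63 h)

def t146 (b : Bx) : TM := tmul S (t142 b) (t144 b)
noncomputable def v146 (x1 x2 : ℝ) : ℝ := v142 x1 x2 * v144 x1 x2
theorem h146 (h : In b E x1 x2) : Enc S E (t146 b) (v146 x1 x2) := enc_mul hS (h142 h) (h144 h)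

def t147 (b : Bx) : TM := tmul S (t140 b) (t43 b)
noncomputable def v147 (x1 x2 : ℝ) : ℝ := v140 x1 x2 * v43 x1 x2
theorem h147 (h : In b E x1 x2) : Enc S E (t147 b) (v147 x1 x2) := enc_mul hS (h140 h) (h43 h)

def t149 (b : Bx) : TM := tmul S (t142 b) (t145 b)
noncomputable def v149 (x1 x2 : ℝ) : ℝ := v142 x1 x2 * v145 x1 x2
theorem h149 (h : In b E x1 x2) : Enc S E (t149 b) (v149 x1 x2) := enc_mul hS (h142 h) (h145 h)

def t150 (b : Bx) : TM := tsub (t149 b) (t147 b)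
noncomputable def v150 (x1 x2 : ℝ) : ℝ := v149 x1 x2 - v147 x1 x2
theorem h150 (h : In b E x1 x2) : Enc S E (t150 b) (v150 x1 x2) := enc_sub (h149 h) (h147 h)

def t151 (b : Bx) : TM := tadd (t5 b) (t143 b)
noncomputable def v151 (x1 x2 : ℝ) : ℝ := v5 x1 x2 + v143 x1 x2
theorem h151 (h : In b E x1 x2) : Enc S E (t151 b) (v151 x1 x2) := enc_add (h5 h) (h143 h)

def t152 (b : Bx) : TM := tsub (t151 b) (t29 b)
noncomputable def v152 (x1 x2 : ℝ) : ℝ := v151 x1 x2 - v29 x1 x2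
theorem h152 (h : In b E x1 x2) : Enc S E (t152 b) (v152 x1 x2) := enc_sub (h151 h) (h29 h)

def t153 (b : Bx) : TM := tnat 2 (t152 b)
noncomputable def v153 (x1 x2 : ℝ) : ℝ := ((2 : ℕ) : ℝ) * v152 x1 x2
theorem h153 (h : In b E x1 x2) : Enc S E (t153 b) (v153 x1 x2) := enc_nat 2 (h152 h)

def t154 (b : Bx) : TM := tnat 2 (t145 b)
noncomputable def v154 (x1 x2 : ℝ) : ℝ := ((2 : ℕ) : ℝ) * v145 x1 x2
theorem h154 (h : In b E x1 x2) : Enc S E (t154 b) (v154 x1 x2) := enc_nat 2 (h145 h)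

def t155 (b : Bx) : TM := tinv S (t153 b)
noncomputable def v155 (x1 x2 : ℝ) : ℝ := (v153 x1 x2)⁻¹
theorem h155 (h : In b E x1 x2) : Enc S E (t155 b) (v155 x1 x2) := enc_inv hS (h153 h)

def t156 (b : Bx) : TM := tmul S (t48 b) (t155 b)
noncomputable def v156 (x1 x2 : ℝ) : ℝ := v48 x1 x2 * v155 x1 x2
theorem h156 (h : In b E x1 x2) : Enc S E (t156 b) (v156 x1 x2) := enc_mul hS (h48 h) (h155 h)

def t157 (b : Bx) : TM := tmul S (t154 b) (t156 b)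
noncomputable def v157 (x1 x2 : ℝ) : ℝ := v154 x1 x2 * v156 x1 x2
theorem h157 (h : In b E x1 x2) : Enc S E (t157 b) (v157 x1 x2) := enc_mul hS (h154 h) (h156 h)

def t160 (b : Bx) : TM := tmul S (t150 b) (t48 b)
noncomputable def v160 (x1 x2 : ℝ) : ℝ := v150 x1 x2 * v48 x1 x2
theorem h160 (h : In b E x1 x2) : Enc S E (t160 b) (v160 x1 x2) := enc_mul hS (h150 h) (h48 h)

def t161 (b : Bx) : TM := tmul S (t146 b) (t157 b)
noncomputable def v161 (x1 x2 : ℝ) : ℝ := v146 x1 x2 * v157 x1 x2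
theorem h161 (h : In b E x1 x2) : Enc S E (t161 b) (v161 x1 x2) := enc_mul hS (h146 h) (h157 h)

def t165 (b : Bx) : TM := tsub (t161 b) (t160 b)
noncomputable def v165 (x1 x2 : ℝ) : ℝ := v161 x1 x2 - v160 x1 x2
theorem h165 (h : In b E x1 x2) : Enc S E (t165 b) (v165 x1 x2) := enc_sub (h161 h) (h160 h)

def t166 (b : Bx) : TM := tsub (t165 b) (t120 b)
noncomputable def v166 (x1 x2 : ℝ) : ℝ := v165 x1 x2 - v120 x1 x2
theorem h166 (h : In b E x1 x2) : Enc S E (t166 b) (v166 x1 x2) := enc_sub (h165 h) (h120 h)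

def t168 (b : Bx) : TM := tmul S (t0 b) (t165 b)
noncomputable def v168 (x1 x2 : ℝ) : ℝ := v0 x1 x2 * v165 x1 x2
theorem h168 (h : In b E x1 x2) : Enc S E (t168 b) (v168 x1 x2) := enc_mul hS (h0 h) (h165 h)

def t169 (b : Bx) : TM := tsub (t168 b) (t39 b)
noncomputable def v169 (x1 x2 : ℝ) : ℝ := v168 x1 x2 - v39 x1 x2
theorem h169 (h : In b E x1 x2) : Enc S E (t169 b) (v169 x1 x2) := enc_sub (h168 h) (h39 h)

def t176 (b : Bx) : TM := tsub (t3 b) (t1 b)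
noncomputable def v176 (x1 x2 : ℝ) : ℝ := v3 x1 x2 - v1 x1 x2
theorem h176 (h : In b E x1 x2) : Enc S E (t176 b) (v176 x1 x2) := enc_sub (h3 h) (h1 h)

def t177 (b : Bx) : TM := qn_t (t176 b) (t0 b) (t135 b) (t169 b) (t166 b)
noncomputable def v177 (x1 x2 : ℝ) : ℝ := qn_v (v176 x1 x2) (v0 x1 x2) (v135 x1 x2) (v169 x1 x2) (v166 x1 x2)
theorem h177 (h : In b E x1 x2) : Enc S E (t177 b) (v177 x1 x2) := qn_enc (h176 h) (h0 h) (h135 h) (h169 h) (h166 h)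

def t178 (b : Bx) : TM := tscale 1 4 (t2 b)
noncomputable def v178 (x1 x2 : ℝ) : ℝ := ((1 : ℕ) : ℝ) / ((4 : ℕ) : ℝ) * v2 x1 x2
theorem h178 (h : In b E x1 x2) : Enc S E (t178 b) (v178 x1 x2) := enc_scale 1 (by norm_num) (h2 h)

def t180 (b : Bx) : TM := tsub (t0 b) (t178 b)
noncomputable def v180 (x1 x2 : ℝ) : ℝ := v0 x1 x2 - v178 x1 x2
theorem h180 (h : In b E x1 x2) : Enc S E (t180 b) (v180 x1 x2) := enc_sub (h0 h) (h178 h)

def t182 (b : Bx) : TM := tsub (t178 b) (t32 b)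
noncomputable def v182 (x1 x2 : ℝ) : ℝ := v178 x1 x2 - v32 x1 x2
theorem h182 (h : In b E x1 x2) : Enc S E (t182 b) (v182 x1 x2) := enc_sub (h178 h) (h32 h)

def t184 (b : Bx) : TM := tsub (t178 b) (t1 b)
noncomputable def v184 (x1 x2 : ℝ) : ℝ := v178 x1 x2 - v1 x1 x2
theorem h184 (h : In b E x1 x2) : Enc S E (t184 b) (v184 x1 x2) := enc_sub (h178 h) (h1 h)

def t185 (_b : Bx) : TM := tconst (Nat.div (Nat.mul 1 S) 16) 0 1
noncomputable def v185 (_x1 _x2 : ℝ) : ℝ := ((1 : ℕ) : ℝ) / ((16 : ℕ) : ℝ)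
theorem h185 (_h : In b E x1 x2) : Enc S E (t185 b) (v185 x1 x2) := enc_rat E 1 (by norm_num)

def t186 (b : Bx) : TM := tsub (t25 b) (t185 b)
noncomputable def v186 (x1 x2 : ℝ) : ℝ := v25 x1 x2 - v185 x1 x2
theorem h186 (h : In b E x1 x2) : Enc S E (t186 b) (v186 x1 x2) := enc_sub (h25 h) (h185 h)

def t187 (b : Bx) : TM := tsub (t24 b) (t1 b)
noncomputable def v187 (x1 x2 : ℝ) : ℝ := v24 x1 x2 - v1 x1 x2
theorem h187 (h : In b E x1 x2) : Enc S E (t187 b) (v187 x1 x2) := enc_sub (h24 h) (h1 h)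

def t188 (b : Bx) : TM := tsub (t187 b) (t185 b)
noncomputable def v188 (x1 x2 : ℝ) : ℝ := v187 x1 x2 - v185 x1 x2
theorem h188 (h : In b E x1 x2) : Enc S E (t188 b) (v188 x1 x2) := enc_sub (h187 h) (h185 h)

def t189 (b : Bx) : TM := tsub (t0 b) (t1 b)
noncomputable def v189 (x1 x2 : ℝ) : ℝ := v0 x1 x2 - v1 x1 x2
theorem h189 (h : In b E x1 x2) : Enc S E (t189 b) (v189 x1 x2) := enc_sub (h0 h) (h1 h)

def t190 (b : Bx) : TM := tsub (t54 b) (t53 b)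
noncomputable def v190 (x1 x2 : ℝ) : ℝ := v54 x1 x2 - v53 x1 x2
theorem h190 (h : In b E x1 x2) : Enc S E (t190 b) (v190 x1 x2) := enc_sub (h54 h) (h53 h)

def t191 (b : Bx) : TM := tadd (t127 b) (t9 b)
noncomputable def v191 (x1 x2 : ℝ) : ℝ := v127 x1 x2 + v9 x1 x2
theorem h191 (h : In b E x1 x2) : Enc S E (t191 b) (v191 x1 x2) := enc_add (h127 h) (h9 h)

def t192 (b : Bx) : TM := tneg (t191 b)
noncomputable def v192 (x1 x2 : ℝ) : ℝ := -(v191 x1 x2)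
theorem h192 (h : In b E x1 x2) : Enc S E (t192 b) (v192 x1 x2) := enc_neg (h191 h)

def g0 (b : Bx) : Bool := and (pos (t76 b)) (and (pos (t27 b)) (and (pos (t61 b)) (and (pos (t78 b)) (and (pos (t89 b)) (and (pos (t84 b)) (and (pos (t98 b)) (and (pos (t108 b)) (and (pos (t110 b)) (and (pos (t47 b)) (and (pos (t153 b)) (and (pos (t37 b)) (or (pos (t187 b)) (pos (t177 b))))))))))))))

def l0 (b : Bx) : Nat := cond (g0 b) 0 (pickb 1 (t177 b) b)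

def P0 (x1 x2 : ℝ) : Prop := 0 < v76 x1 x2 ∧ 0 < v27 x1 x2 ∧ 0 < v61 x1 x2 ∧ 0 < v78 x1 x2 ∧ 0 < v89 x1 x2 ∧ 0 < v84 x1 x2 ∧ 0 < v98 x1 x2 ∧ 0 < v108 x1 x2 ∧ 0 < v110 x1 x2 ∧ 0 < v47 x1 x2 ∧ 0 < v153 x1 x2 ∧ 0 < v37 x1 x2 ∧ (0 < v187 x1 x2 ∨ 0 < v177 x1 x2)

theorem l0_sound (h : In b E x1 x2) (e : l0 b = 0) : P0 x1 x2 := by
  have e1 : g0 b = true := by
    rcases e2 : g0 b with _ | _
    · unfold l0 at e; rw [e2, cond_false] at e; exact absurd e (pickb_ne _ _ _)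
    · rfl
  exact ⟨pos_sound hS (h76 h) (Bool.and_eq_true_iff.mp e1).1, ⟨pos_sound hS (h27 h) (Bool.and_eq_true_iff.mp (Bool.and_eq_true_iff.mp e1).2).1, ⟨pos_sound hS (h61 h) (Bool.and_eq_true_iff.mp (Bool.and_eq_true_iff.mp (Bool.and_eq_true_iff.mp e1).2).2).1, ⟨pos_sound hS (h78 h) (Bool.and_eq_true_iff.mp (Bool.and_eq_true_iff.mp (Bool.and_eq_true_iff.mp (Bool.and_eq_true_iff.mp e1).2).2).2).1, ⟨pos_sound hS (h89 h) (Bool.and_eq_true_iff.mp (Bool.and_eq_true_iff.mp (Bool.and_eq_true_iff.mp (Bool.and_eq_true_iff.mp (Bool.and_eq_true_iff.mp e1).2).2).2).2).1, ⟨pos_sound hS (h84 h) (Bool.and_eq_true_iff.mp (Bool.and_eq_true_iff.mp (Bool.and_eq_true_iff.mp (Bool.and_eq_true_iff.mp (Bool.and_eq_true_iff.mp (Bool.and_eq_true_iff.mp e1).2).2).2).2).2).1, ⟨pos_sound hS (h98 h) (Bool.and_eq_true_iff.mp (Bool.and_eq_true_iff.mp (Bool.and_eq_true_iff.mp (Bool.and_eq_true_iff.mp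 (Bool.and_eq_true_iff.mp (Bool.and_eq_true_iff.mp (Bool.and_eq_true_iff.mp e1).2).2).2).2).2).2).1, ⟨pos_sound hS (h108 h) (Bool.and_eq_true_iff.mp (Bool.and_eq_true_iff.mp (Bool.and_eq_true_iff.mp (Bool.and_eq_true_iff.mp (Bool.and_eq_true_iff.mp (Bool.and_eq_true_iff.mp (Bool.and_eq_true_iff.mp (Bool.and_eq_true_iff.mp e1).2).2).2).2).2).2).2).1, ⟨pos_sound hS (h110 h) (Bool.and_eq_true_iff.mp (Bool.and_eq_true_iff.mp (Bool.and_eq_true_iff.mp (Bool.and_eq_true_iff.mp (Bool.and_eq_true_iff.mp (Bool.and_eq_true_iff.mp (Bool.and_eq_true_iff.mp (Bool.and_eq_true_iff.mp (Bool.and_eq_true_iff.mp e1).2).2).2).2).2).2).2).2).1, ⟨pos_sound hS (h47 h) (Bool.and_eq_true_iff.mp (Bool.and_eq_true_iff.mp (Bool.and_eq_true_iff.mp (Bool.and_eq_true_iff.mp (Bool.and_eq_true_iff.mp (Bool.and_eq_true_iff.mp (Bool.and_eq_true_iff.mp (Bool.and_eq_true_iff.mp (Bool.and_eq_true_iff.mp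 (Bool.and_eq_true_iff.mp e1).2).2).2).2).2).2).2).2).2).1, ⟨pos_sound hS (h153 h) (Bool.and_eq_true_iff.mp (Bool.and_eq_true_iff.mp (Bool.and_eq_true_iff.mp (Bool.and_eq_true_iff.mp (Bool.and_eq_true_iff.mp (Bool.and_eq_true_iff.mp (Bool.and_eq_true_iff.mp (Bool.and_eq_true_iff.mp (Bool.and_eq_true_iff.mp (Bool.and_eq_true_iff.mp (Bool.and_eq_true_iff.mp e1).2).2).2).2).2).2).2).2).2).2).1, ⟨pos_sound hS (h37 h) (Bool.and_eq_true_iff.mp (Bool.and_eq_true_iff.mp (Bool.and_eq_true_iff.mp (Bool.and_eq_true_iff.mp (Bool.and_eq_true_iff.mp (Bool.and_eq_true_iff.mp (Bool.and_eq_true_iff.mp (Bool.and_eq_true_iff.mp (Bool.and_eq_true_iff.mp (Bool.and_eq_true_iff.mp (Bool.and_eq_true_iff.mp (Bool.and_eq_true_iff.mp e1).2).2).2).2).2).2).2).2).2).2).2).1, ((Bool.or_eq_true_iff.mp (Bool.and_eq_true_iff.mp (Bool.and_eq_true_iff.mp (Bool.and_eq_true_iff.mp (Bool.and_eq_true_iff.mp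 (Bool.and_eq_true_iff.mp (Bool.and_eq_true_iff.mp (Bool.and_eq_true_iff.mp (Bool.and_eq_true_iff.mp (Bool.and_eq_true_iff.mp (Bool.and_eq_true_iff.mp (Bool.and_eq_true_iff.mp (Bool.and_eq_true_iff.mp e1).2).2).2).2).2).2).2).2).2).2).2).2).imp (fun a => pos_sound hS (h187 h) a) (fun a => pos_sound hS (h177 h) a))⟩⟩⟩⟩⟩⟩⟩⟩⟩⟩⟩⟩

def g1 (b : Bx) : Bool := or (pos (t180 b)) (or (pos (t182 b)) (or (pos (t137 b)) (or (pos (t184 b)) (or (pos (t138 b)) (or (pos (t186 b)) (or (pos (t188 b)) (or (pos (t189 b)) (or (pos (t190 b)) (pos (t192 b))))))))))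

def l1 (b : Bx) : Nat := cond (g1 b) 0 (l0 b)

def P1 (x1 x2 : ℝ) : Prop := (0 < v180 x1 x2 ∨ 0 < v182 x1 x2 ∨ 0 < v137 x1 x2 ∨ 0 < v184 x1 x2 ∨ 0 < v138 x1 x2 ∨ 0 < v186 x1 x2 ∨ 0 < v188 x1 x2 ∨ 0 < v189 x1 x2 ∨ 0 < v190 x1 x2 ∨ 0 < v192 x1 x2) ∨ (P0 x1 x2)

theorem l1_sound (h : In b E x1 x2) (e : l1 b = 0) : P1 x1 x2 := by
  unfold l1 at e
  rcases e1 : g1 b with _ | _
  · rw [e1, cond_false] at e
    have z0 : l0 b = 0 := e
    exact Or.inr (l0_sound h z0)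
  · exact Or.inl (((Bool.or_eq_true_iff.mp e1).imp (fun a => pos_sound hS (h180 h) a) (fun a => ((Bool.or_eq_true_iff.mp a).imp (fun a => pos_sound hS (h182 h) a) (fun a => ((Bool.or_eq_true_iff.mp a).imp (fun a => pos_sound hS (h137 h) a) (fun a => ((Bool.or_eq_true_iff.mp a).imp (fun a => pos_sound hS (h184 h) a) (fun a => ((Bool.or_eq_true_iff.mp a).imp (fun a => pos_sound hS (h138 h) a) (fun a => ((Bool.or_eq_true_iff.mp a).imp (fun a => pos_sound hS (h186 h) a) (fun a => ((Bool.or_eq_true_iff.mp a).imp (fun a => pos_sound hS (h188 h) a) (fun a => ((Bool.or_eq_true_iff.mp a).imp (fun a => pos_sound hS (h189 h) a) (fun a => ((Bool.or_eq_true_iff.mp a).imp (fun a => pos_sound hS (h190 h) a) (fun a => pos_sound hS (h192 h) a)))))))))))))))))))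

def f (b : Bx) : Nat := l1 b

/-- the statement -/
def Q (x1 x2 : ℝ) : Prop := P1 x1 x2

theorem f_sound (b : Bx) (hb : f b = 0) (x1 x2 : ℝ) (hm : Mem S b x1 x2) : Q x1 x2 := by
  obtain ⟨E, h⟩ := pt_of_mem hm
  have h : In b E x1 x2 := h
  unfold f at hb
  have e := hb
  have z1 : l1 b = 0 := e
  exact (l1_sound h z1)

/-- the box -/
def b0 : Bx := ⟨232471924, 0, 232471926, 697415773, 0, 232471926⟩

theorem chk_all {n : ℕ} {b : Bx} (h : chk f n b = true) (x1 x2 : ℝ) (hm : Mem S b x1 x2) : Q x1 x2 :=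
  chk_sound (fun b hb x1 x2 hm => f_sound b hb x1 x2 hm) n b h x1 x2 hm


end Pool.Agent.Strip051.LB.ChB00V2_pm_011
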