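import Pool.Agent.Strip051.LB.ChB00V2_pm_011.Defs
import Pool.Agent.Strip051.LB.Slope
import Pool.Agent.Strip051.LB.Star
import Pool.Agent.Strip051.LB.Cf

/-! # LINE tight chart ChB00V2_pm_011: slopes -/

namespace Pool.Agent.Strip051.LB.ChB00V2_pm_011

open Pool.Agent.Strip051.LB Pool.Agent.Strip051.LB.Fn Pool.Agent.Strip051.LB.Fc Pool.Agent.StripNear

set_option maxRecDepth 100000
set_option linter.all false

noncomputable def v40 (x1 x2 : ℝ) : ℝ := ((2 : ℕ) : ℝ) * v28 x1 x2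

noncomputable def v41 (x1 x2 : ℝ) : ℝ := v5 x1 x2 + v40 x1 x2

noncomputable def v44 (x1 x2 : ℝ) : ℝ := v41 x1 x2 * v43 x1 x2

noncomputable def v49 (x1 x2 : ℝ) : ℝ := v44 x1 x2 * v48 x1 x2

noncomputable def v50 (x1 x2 : ℝ) : ℝ := -(v49 x1 x2)

noncomputable def v55 (x1 x2 : ℝ) : ℝ := v53 x1 x2 - v54 x1 x2

noncomputable def v57 (x1 x2 : ℝ) : ℝ := (v24 x1 x2) ^ 2

noncomputable def v59 (x1 x2 : ℝ) : ℝ := v5 x1 x2 - v57 x1 x2

noncomputable def v60 (x1 x2 : ℝ) : ℝ := -(v58 x1 x2)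

noncomputable def v64 (x1 x2 : ℝ) : ℝ := -(v63 x1 x2)

noncomputable def v67 (x1 x2 : ℝ) : ℝ := (v66 x1 x2) ^ 2

noncomputable def v70 (x1 x2 : ℝ) : ℝ := v52 x1 x2 - v67 x1 x2

noncomputable def v73 (x1 x2 : ℝ) : ℝ := (v72 x1 x2) ^ 2

noncomputable def v75 (x1 x2 : ℝ) : ℝ := v70 x1 x2 - v73 x1 x2

noncomputable def v80 (x1 x2 : ℝ) : ℝ := -(v18 x1 x2)

noncomputable def v83 (x1 x2 : ℝ) : ℝ := v32 x1 x2 * v82 x1 x2

noncomputable def v86 (x1 x2 : ℝ) : ℝ := v83 x1 x2 * v85 x1 x2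

noncomputable def v87 (x1 x2 : ℝ) : ℝ := v52 x1 x2 - v73 x1 x2

noncomputable def v88 (x1 x2 : ℝ) : ℝ := -(v74 x1 x2)

noncomputable def v92 (x1 x2 : ℝ) : ℝ := -(v91 x1 x2)

noncomputable def v101 (x1 x2 : ℝ) : ℝ := -(v100 x1 x2)

noncomputable def v102 (x1 x2 : ℝ) : ℝ := v94 x1 x2 * v99 x1 x2

noncomputable def v111 (x1 x2 : ℝ) : ℝ := v79 x1 x2 - v77 x1 x2

noncomputable def v112 (x1 x2 : ℝ) : ℝ := v111 x1 x2 * v107 x1 x2

noncomputable def v114 (x1 x2 : ℝ) : ℝ := v112 x1 x2 - v86 x1 x2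

noncomputable def v115 (x1 x2 : ℝ) : ℝ := -(v102 x1 x2)

noncomputable def v128 (x1 x2 : ℝ) : ℝ := v7 x1 x2 * v24 x1 x2

noncomputable def v129 (x1 x2 : ℝ) : ℝ := v29 x1 x2 * v0 x1 x2

noncomputable def v131 (x1 x2 : ℝ) : ℝ := -(v130 x1 x2)

noncomputable def v132 (x1 x2 : ℝ) : ℝ := v128 x1 x2 + v129 x1 x2

noncomputable def v134 (x1 x2 : ℝ) : ℝ := v132 x1 x2 * v125 x1 x2

noncomputable def v136 (x1 x2 : ℝ) : ℝ := v134 x1 x2 - v9 x1 x2

noncomputable def v141 (x1 x2 : ℝ) : ℝ := -(v140 x1 x2)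

noncomputable def v158 (x1 x2 : ℝ) : ℝ := -(v157 x1 x2)

noncomputable def v159 (x1 x2 : ℝ) : ℝ := v146 x1 x2 * v155 x1 x2

noncomputable def v163 (x1 x2 : ℝ) : ℝ := v160 x1 x2 - v161 x1 x2

noncomputable def v164 (x1 x2 : ℝ) : ℝ := -(v159 x1 x2)

noncomputable def v167 (x1 x2 : ℝ) : ℝ := v24 x1 x2 - v3 x1 x2

noncomputable def v193 (x1 x2 : ℝ) : ℝ := v72 x1 x2 - v3 x1 x2

structure Cx (x1 x2 : ℝ) : Prop where
  hc : v7 x1 x2 ^ 2 + x1 ^ 2 = 1
  p27 : 0 < v27 x1 x2
  p61 : 0 < v61 x1 x2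
  p78 : 0 < v78 x1 x2
  p89 : 0 < v89 x1 x2
  p84 : 0 < v84 x1 x2
  p98 : 0 < v98 x1 x2
  p108 : 0 < v108 x1 x2
  p110 : 0 < v110 x1 x2
  p47 : 0 < v47 x1 x2
  p153 : 0 < v153 x1 x2
  p37 : 0 < v37 x1 x2

variable {x1 x2 : ℝ}

theorem s3q (x1 x2 : ℝ) : v2 x1 x2 ^ 2 = 3 := by
  rw [v2]; exact s3sq

theorem s3ne (x1 x2 : ℝ) : v2 x1 x2 ≠ 0 := by
  rw [v2]; positivity

theorem s1 (c : Cx x1 x2) : v1 x1 x2 = v24 x1 x2 + v25 x1 x2 * v5 x1 x2 := by
  simp only [v0, v1, v5, v12, v24, v25]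
  (try push_cast)
  first | ring | grind

theorem s26 (c : Cx x1 x2) : v26 x1 x2 = v57 x1 x2 + v25 x1 x2 * v58 x1 x2 := by
  have a0 : (v1 x1 x2 + v24 x1 x2) * v1 x1 x2 = (v1 x1 x2 + v24 x1 x2) * (v24 x1 x2 + v25 x1 x2 * v5 x1 x2) := congrArg (fun z => (v1 x1 x2 + v24 x1 x2) * z) (s1 c)
  try simp only [v0, v1, v5, v12, v24, v25, v26, v57, v58] at a0
  simp only [v0, v1, v5, v12, v24, v25, v26, v57, v58]
  (try push_cast at a0 ⊢)
  first | linear_combination a0 | ring | grind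

theorem s27 (c : Cx x1 x2) : v27 x1 x2 = v59 x1 x2 + v25 x1 x2 * v60 x1 x2 := by
  have a1 := s26 c
  try simp only [v0, v1, v5, v12, v24, v25, v27, v58, v59, v60] at a1
  simp only [v0, v1, v5, v12, v24, v25, v27, v58, v59, v60]
  (try push_cast at a1 ⊢)
  first | linear_combination -a1 | ring | grind

theorem q28 (c : Cx x1 x2) : v59 x1 x2 = v29 x1 x2 ^ 2 := by
  have hc := c.hc
  have h3 := s3q x1 x2
  simp only [v0, v3, v5, v10, v12, v14, v16, v24, v29, v57, v59] at hc ⊢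
  push_cast at hc ⊢
  grind

theorem s28 (c : Cx x1 x2) : v28 x1 x2 = v29 x1 x2 + v25 x1 x2 * v64 x1 x2 := by
  have a0 := s27 c
  have e : 0 < Real.sqrt (v27 x1 x2) + v29 x1 x2 := by
    have e := c.p61
    simp only [v5, v16, v27, v28, v29, v61] at e ⊢
    push_cast at e ⊢
    linarith
  have b := sl_sqrt a0 (q28 c) (le_of_lt c.p27) e
  clear a0
  try simp only [v0, v1, v5, v12, v16, v24, v25, v27, v28, v29, v58, v59, v60, v61, v62, v63, v64] at b
  simp only [v0, v1, v5, v12, v16, v24, v25, v27, v28, v29, v58, v59, v60, v61, v62, v63, v64]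
  (try push_cast at b ⊢)
  first | linear_combination b | ring | grind

theorem s30 (c : Cx x1 x2) : v30 x1 x2 = v65 x1 x2 + v25 x1 x2 * v63 x1 x2 := by
  have a0 := s28 c
  try simp only [v0, v1, v12, v16, v24, v25, v29, v30, v64, v65] at a0
  simp only [v0, v1, v12, v16, v24, v25, v29, v30, v64, v65]
  (try push_cast at a0 ⊢)
  first | linear_combination -a0 | ring | grind

theorem s31 (c : Cx x1 x2) : v31 x1 x2 = v66 x1 x2 + v25 x1 x2 * v63 x1 x2 := by
  have a0 := s30 c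
  try simp only [v0, v1, v12, v16, v24, v25, v29, v30, v31, v65, v66] at a0
  simp only [v0, v1, v12, v16, v24, v25, v29, v30, v31, v65, v66]
  (try push_cast at a0 ⊢)
  first | linear_combination a0 | ring | grind

theorem s32 (c : Cx x1 x2) : v32 x1 x2 = v72 x1 x2 + v25 x1 x2 * v5 x1 x2 := by
  have a0 := s1 c
  try simp only [v0, v1, v5, v12, v24, v25, v32, v72] at a0
  simp only [v0, v1, v5, v12, v24, v25, v32, v72]
  (try push_cast at a0 ⊢)
  first | linear_combination a0 | ring | grind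

theorem s40 (c : Cx x1 x2) : v40 x1 x2 = v139 x1 x2 + v25 x1 x2 * v141 x1 x2 := by
  have a0 := s28 c
  try simp only [v0, v1, v12, v16, v24, v25, v29, v40, v64, v139, v140, v141] at a0
  simp only [v0, v1, v12, v16, v24, v25, v29, v40, v64, v139, v140, v141]
  (try push_cast at a0 ⊢)
  first | linear_combination (2 : ℝ) * a0 | ring | grind

theorem s41 (c : Cx x1 x2) : v41 x1 x2 = v142 x1 x2 + v25 x1 x2 * v141 x1 x2 := by
  have a1 := s40 c
  try simp only [v0, v1, v5, v12, v16, v24, v25, v29, v40, v41, v139, v140, v141, v142] at a1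
  simp only [v0, v1, v5, v12, v16, v24, v25, v29, v40, v41, v139, v140, v141, v142]
  (try push_cast at a1 ⊢)
  first | linear_combination a1 | ring | grind

theorem s42 (c : Cx x1 x2) : v42 x1 x2 = v143 x1 x2 + v25 x1 x2 * v2 x1 x2 := by
  have a1 : (v2 x1 x2) * v1 x1 x2 = (v2 x1 x2) * (v24 x1 x2 + v25 x1 x2 * v5 x1 x2) := congrArg (fun z => (v2 x1 x2) * z) (s1 c)
  try simp only [v0, v1, v2, v5, v12, v24, v25, v42, v143] at a1
  simp only [v0, v1, v2, v5, v12, v24, v25, v42, v143]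
  (try push_cast at a1 ⊢)
  first | linear_combination a1 | ring | grind

theorem s43 (c : Cx x1 x2) : v43 x1 x2 = v144 x1 x2 + v25 x1 x2 * v145 x1 x2 := by
  have a0 := s42 c
  have a1 := s28 c
  try simp only [v0, v1, v2, v12, v16, v24, v25, v29, v43, v64, v144, v145] at a0
  try simp only [v0, v1, v2, v12, v16, v24, v25, v29, v43, v64, v144, v145] at a1
  simp only [v0, v1, v2, v12, v16, v24, v25, v29, v43, v64, v144, v145]
  (try push_cast at a0 a1 ⊢)
  first | linear_combination a0 - a1 | ring | grind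

theorem s44 (c : Cx x1 x2) : v44 x1 x2 = v146 x1 x2 + v25 x1 x2 * v150 x1 x2 := by
  have a0 : (v43 x1 x2) * v41 x1 x2 = (v43 x1 x2) * (v142 x1 x2 + v25 x1 x2 * v141 x1 x2) := congrArg (fun z => (v43 x1 x2) * z) (s41 c)
  have a1 : (v142 x1 x2) * v43 x1 x2 = (v142 x1 x2) * (v144 x1 x2 + v25 x1 x2 * v145 x1 x2) := congrArg (fun z => (v142 x1 x2) * z) (s43 c)
  try simp only [v0, v1, v2, v5, v12, v16, v24, v25, v29, v40, v41, v43, v44, v139, v140, v141, v142, v144, v145, v146, v147, v149, v150] at a0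
  try simp only [v0, v1, v2, v5, v12, v16, v24, v25, v29, v40, v41, v43, v44, v139, v140, v141, v142, v144, v145, v146, v147, v149, v150] at a1
  simp only [v0, v1, v2, v5, v12, v16, v24, v25, v29, v40, v41, v43, v44, v139, v140, v141, v142, v144, v145, v146, v147, v149, v150]
  (try push_cast at a0 a1 ⊢)
  first | linear_combination a0 + a1 | ring | grind

theorem s45 (c : Cx x1 x2) : v45 x1 x2 = v151 x1 x2 + v25 x1 x2 * v2 x1 x2 := by
  have a1 := s42 c
  try simp only [v0, v1, v2, v5, v12, v24, v25, v45, v151] at a1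
  simp only [v0, v1, v2, v5, v12, v24, v25, v45, v151]
  (try push_cast at a1 ⊢)
  first | linear_combination a1 | ring | grind

theorem s46 (c : Cx x1 x2) : v46 x1 x2 = v152 x1 x2 + v25 x1 x2 * v145 x1 x2 := by
  have a0 := s45 c
  have a1 := s28 c
  try simp only [v0, v1, v2, v5, v12, v16, v24, v25, v29, v45, v46, v64, v145, v151, v152] at a0
  try simp only [v0, v1, v2, v5, v12, v16, v24, v25, v29, v45, v46, v64, v145, v151, v152] at a1
  simp only [v0, v1, v2, v5, v12, v16, v24, v25, v29, v45, v46, v64, v145, v151, v152]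
  (try push_cast at a0 a1 ⊢)
  first | linear_combination a0 - a1 | ring | grind

theorem s47 (c : Cx x1 x2) : v47 x1 x2 = v153 x1 x2 + v25 x1 x2 * v154 x1 x2 := by
  have a0 := s46 c
  try simp only [v0, v1, v2, v5, v12, v16, v24, v25, v29, v45, v46, v47, v145, v151, v152, v153, v154] at a0
  simp only [v0, v1, v2, v5, v12, v16, v24, v25, v29, v45, v46, v47, v145, v151, v152, v153, v154]
  (try push_cast at a0 ⊢)
  first | linear_combination (2 : ℝ) * a0 | ring | grind

theorem s48 (c : Cx x1 x2) : v48 x1 x2 = v155 x1 x2 + v25 x1 x2 * v158 x1 x2 := by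
  have a0 := s47 c
  have b := sl_inv a0 (c.p47).ne' (c.p153).ne'
  clear a0
  try simp only [v0, v1, v2, v5, v12, v16, v24, v25, v29, v45, v46, v47, v48, v145, v151, v152, v153, v154, v155, v156, v157, v158] at b
  simp only [v0, v1, v2, v5, v12, v16, v24, v25, v29, v45, v46, v47, v48, v145, v151, v152, v153, v154, v155, v156, v157, v158]
  (try push_cast at b ⊢)
  first | linear_combination b | ring | grind

theorem s49 (c : Cx x1 x2) : v49 x1 x2 = v159 x1 x2 + v25 x1 x2 * v163 x1 x2 := by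
  have a0 : (v48 x1 x2) * v44 x1 x2 = (v48 x1 x2) * (v146 x1 x2 + v25 x1 x2 * v150 x1 x2) := congrArg (fun z => (v48 x1 x2) * z) (s44 c)
  have a1 : (v146 x1 x2) * v48 x1 x2 = (v146 x1 x2) * (v155 x1 x2 + v25 x1 x2 * v158 x1 x2) := congrArg (fun z => (v146 x1 x2) * z) (s48 c)
  try simp only [v0, v1, v12, v24, v25, v49, v150, v158, v159, v160, v161, v163] at a0
  try simp only [v0, v1, v12, v24, v25, v49, v150, v158, v159, v160, v161, v163] at a1
  simp only [v0, v1, v12, v24, v25, v49, v150, v158, v159, v160, v161, v163]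
  (try push_cast at a0 a1 ⊢)
  first | linear_combination a0 + a1 | ring | grind

theorem s50 (c : Cx x1 x2) : v50 x1 x2 = v164 x1 x2 + v25 x1 x2 * v165 x1 x2 := by
  have a0 := s49 c
  try simp only [v0, v1, v12, v24, v25, v50, v163, v164, v165] at a0
  simp only [v0, v1, v12, v24, v25, v50, v163, v164, v165]
  (try push_cast at a0 ⊢)
  first | linear_combination -a0 | ring | grind

theorem s51 (c : Cx x1 x2) : v51 x1 x2 = v67 x1 x2 + v25 x1 x2 * v69 x1 x2 := by
  have a0 : (v31 x1 x2 + v66 x1 x2) * v31 x1 x2 = (v31 x1 x2 + v66 x1 x2) * (v66 x1 x2 + v25 x1 x2 * v63 x1 x2) := congrArg (fun z => (v31 x1 x2 + v66 x1 x2) * z) (s31 c)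
  try simp only [v0, v1, v12, v16, v24, v25, v29, v30, v31, v51, v65, v66, v67, v68, v69] at a0
  simp only [v0, v1, v12, v16, v24, v25, v29, v30, v31, v51, v65, v66, v67, v68, v69]
  (try push_cast at a0 ⊢)
  first | linear_combination a0 | ring | grind

theorem s53 (c : Cx x1 x2) : v53 x1 x2 = v70 x1 x2 + v25 x1 x2 * v71 x1 x2 := by
  have a1 := s51 c
  try simp only [v0, v1, v12, v24, v25, v52, v53, v70, v71] at a1
  simp only [v0, v1, v12, v24, v25, v52, v53, v70, v71]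
  (try push_cast at a1 ⊢)
  first | linear_combination -a1 | ring | grind

theorem s54 (c : Cx x1 x2) : v54 x1 x2 = v73 x1 x2 + v25 x1 x2 * v74 x1 x2 := by
  have a0 : (v32 x1 x2 + v72 x1 x2) * v32 x1 x2 = (v32 x1 x2 + v72 x1 x2) * (v72 x1 x2 + v25 x1 x2 * v5 x1 x2) := congrArg (fun z => (v32 x1 x2 + v72 x1 x2) * z) (s32 c)
  try simp only [v0, v1, v5, v12, v24, v25, v32, v54, v72, v73, v74] at a0
  simp only [v0, v1, v5, v12, v24, v25, v32, v54, v72, v73, v74]
  (try push_cast at a0 ⊢)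
  first | linear_combination a0 | ring | grind

theorem s55 (c : Cx x1 x2) : v55 x1 x2 = v75 x1 x2 + v25 x1 x2 * v76 x1 x2 := by
  have a0 := s53 c
  have a1 := s54 c
  try simp only [v0, v1, v12, v24, v25, v32, v52, v53, v55, v70, v71, v72, v74, v75, v76] at a0
  try simp only [v0, v1, v12, v24, v25, v32, v52, v53, v55, v70, v71, v72, v74, v75, v76] at a1
  simp only [v0, v1, v12, v24, v25, v32, v52, v53, v55, v70, v71, v72, v74, v75, v76]
  (try push_cast at a0 a1 ⊢)
  first | linear_combination a0 - a1 | ring | grind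

theorem s78 (c : Cx x1 x2) : v78 x1 x2 = v87 x1 x2 + v25 x1 x2 * v88 x1 x2 := by
  have a1 := s54 c
  try simp only [v0, v1, v12, v24, v25, v32, v52, v72, v74, v78, v87, v88] at a1
  simp only [v0, v1, v12, v24, v25, v32, v52, v72, v74, v78, v87, v88]
  (try push_cast at a1 ⊢)
  first | linear_combination -a1 | ring | grind

theorem q79 (c : Cx x1 x2) : v87 x1 x2 = v80 x1 x2 ^ 2 := by
  have hc := c.hc
  have h3 := s3q x1 x2
  simp only [v0, v3, v10, v11, v12, v13, v18, v24, v52, v72, v73, v80, v87] at hc ⊢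
  push_cast at hc ⊢
  grind

theorem s79 (c : Cx x1 x2) : v79 x1 x2 = v80 x1 x2 + v25 x1 x2 * v92 x1 x2 := by
  have a0 := s78 c
  have e : 0 < Real.sqrt (v78 x1 x2) + v80 x1 x2 := by
    have e := c.p89
    simp only [v52, v78, v79, v80, v89] at e ⊢
    push_cast at e ⊢
    linarith
  have b := sl_sqrt a0 (q79 c) (le_of_lt c.p78) e
  clear a0
  try simp only [v0, v1, v12, v24, v25, v32, v52, v72, v74, v78, v79, v80, v87, v88, v89, v90, v91, v92] at b
  simp only [v0, v1, v12, v24, v25, v32, v52, v72, v74, v78, v79, v80, v87, v88, v89, v90, v91, v92]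
  (try push_cast at b ⊢)
  first | linear_combination b | ring | grind

theorem s82 (c : Cx x1 x2) : v82 x1 x2 = v93 x1 x2 + v25 x1 x2 * v92 x1 x2 := by
  have a0 := s79 c
  try simp only [v0, v1, v12, v24, v25, v80, v81, v82, v92, v93] at a0
  simp only [v0, v1, v12, v24, v25, v80, v81, v82, v92, v93]
  (try push_cast at a0 ⊢)
  first | linear_combination a0 | ring | grind

theorem s83 (c : Cx x1 x2) : v83 x1 x2 = v94 x1 x2 + v25 x1 x2 * v97 x1 x2 := by
  have a0 : (v82 x1 x2) * v32 x1 x2 = (v82 x1 x2) * (v72 x1 x2 + v25 x1 x2 * v5 x1 x2) := congrArg (fun z => (v82 x1 x2) * z) (s32 c)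
  have a1 : (v72 x1 x2) * v82 x1 x2 = (v72 x1 x2) * (v93 x1 x2 + v25 x1 x2 * v92 x1 x2) := congrArg (fun z => (v72 x1 x2) * z) (s82 c)
  try simp only [v0, v1, v5, v12, v24, v25, v32, v72, v81, v82, v83, v92, v93, v94, v95, v97] at a0
  try simp only [v0, v1, v5, v12, v24, v25, v32, v72, v81, v82, v83, v92, v93, v94, v95, v97] at a1
  simp only [v0, v1, v5, v12, v24, v25, v32, v72, v81, v82, v83, v92, v93, v94, v95, v97]
  (try push_cast at a0 a1 ⊢)
  first | linear_combination a0 + a1 | ring | grind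

theorem s84 (c : Cx x1 x2) : v84 x1 x2 = v98 x1 x2 + v25 x1 x2 * v5 x1 x2 := by
  have a1 := s32 c
  try simp only [v0, v1, v2, v3, v5, v12, v24, v25, v32, v72, v84, v98] at a1
  simp only [v0, v1, v2, v3, v5, v12, v24, v25, v32, v72, v84, v98]
  (try push_cast at a1 ⊢)
  first | linear_combination a1 | ring | grind

theorem s85 (c : Cx x1 x2) : v85 x1 x2 = v99 x1 x2 + v25 x1 x2 * v101 x1 x2 := by
  have a0 := s84 c
  have b := sl_inv a0 (c.p84).ne' (c.p98).ne'
  clear a0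
  try simp only [v0, v1, v2, v3, v5, v12, v24, v25, v32, v72, v84, v85, v98, v99, v100, v101] at b
  simp only [v0, v1, v2, v3, v5, v12, v24, v25, v32, v72, v84, v85, v98, v99, v100, v101]
  (try push_cast at b ⊢)
  first | linear_combination b | ring | grind

theorem s86 (c : Cx x1 x2) : v86 x1 x2 = v102 x1 x2 + v25 x1 x2 * v106 x1 x2 := by
  have a0 : (v85 x1 x2) * v83 x1 x2 = (v85 x1 x2) * (v94 x1 x2 + v25 x1 x2 * v97 x1 x2) := congrArg (fun z => (v85 x1 x2) * z) (s83 c)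
  have a1 : (v94 x1 x2) * v85 x1 x2 = (v94 x1 x2) * (v99 x1 x2 + v25 x1 x2 * v101 x1 x2) := congrArg (fun z => (v94 x1 x2) * z) (s85 c)
  try simp only [v0, v1, v12, v24, v25, v81, v82, v86, v97, v101, v102, v103, v104, v106] at a0
  try simp only [v0, v1, v12, v24, v25, v81, v82, v86, v97, v101, v102, v103, v104, v106] at a1
  simp only [v0, v1, v12, v24, v25, v81, v82, v86, v97, v101, v102, v103, v104, v106]
  (try push_cast at a0 a1 ⊢)
  first | linear_combination a0 + a1 | ring | grind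

theorem s121 (c : Cx x1 x2) : v121 x1 x2 = v128 x1 x2 + v25 x1 x2 * v7 x1 x2 := by
  have a1 : (v7 x1 x2) * v1 x1 x2 = (v7 x1 x2) * (v24 x1 x2 + v25 x1 x2 * v5 x1 x2) := congrArg (fun z => (v7 x1 x2) * z) (s1 c)
  try simp only [v0, v1, v5, v12, v24, v25, v121, v128] at a1
  simp only [v0, v1, v5, v12, v24, v25, v121, v128]
  (try push_cast at a1 ⊢)
  first | linear_combination a1 | ring | grind

theorem s122 (c : Cx x1 x2) : v122 x1 x2 = v129 x1 x2 + v25 x1 x2 * v131 x1 x2 := by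
  have a0 : (v0 x1 x2) * v28 x1 x2 = (v0 x1 x2) * (v29 x1 x2 + v25 x1 x2 * v64 x1 x2) := congrArg (fun z => (v0 x1 x2) * z) (s28 c)
  try simp only [v0, v1, v12, v16, v24, v25, v29, v64, v122, v129, v130, v131] at a0
  simp only [v0, v1, v12, v16, v24, v25, v29, v64, v122, v129, v130, v131]
  (try push_cast at a0 ⊢)
  first | linear_combination a0 | ring | grind

theorem s124 (c : Cx x1 x2) : v124 x1 x2 = v132 x1 x2 + v25 x1 x2 * v133 x1 x2 := by
  have a0 := s121 c
  have a1 := s122 c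
  try simp only [v0, v1, v12, v24, v25, v124, v131, v132, v133] at a0
  try simp only [v0, v1, v12, v24, v25, v124, v131, v132, v133] at a1
  simp only [v0, v1, v12, v24, v25, v124, v131, v132, v133]
  (try push_cast at a0 a1 ⊢)
  first | linear_combination a0 + a1 | ring | grind

theorem s126 (c : Cx x1 x2) : v126 x1 x2 = v134 x1 x2 + v25 x1 x2 * v135 x1 x2 := by
  have a0 : (v125 x1 x2) * v124 x1 x2 = (v125 x1 x2) * (v132 x1 x2 + v25 x1 x2 * v133 x1 x2) := congrArg (fun z => (v125 x1 x2) * z) (s124 c)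
  try simp only [v0, v1, v12, v24, v25, v124, v126, v132, v133, v134, v135] at a0
  simp only [v0, v1, v12, v24, v25, v124, v126, v132, v133, v134, v135]
  (try push_cast at a0 ⊢)
  first | linear_combination a0 | ring | grind

theorem s127 (c : Cx x1 x2) : v127 x1 x2 = v136 x1 x2 + v25 x1 x2 * v135 x1 x2 := by
  have a0 := s126 c
  try simp only [v0, v1, v9, v12, v24, v25, v127, v136] at a0
  simp only [v0, v1, v9, v12, v24, v25, v127, v136]
  (try push_cast at a0 ⊢)
  first | linear_combination a0 | ring | grind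

theorem s137 (c : Cx x1 x2) : v137 x1 x2 = v193 x1 x2 + v25 x1 x2 * v5 x1 x2 := by
  have a0 := s32 c
  try simp only [v0, v1, v2, v3, v5, v12, v24, v25, v32, v72, v137, v193] at a0
  simp only [v0, v1, v2, v3, v5, v12, v24, v25, v32, v72, v137, v193]
  (try push_cast at a0 ⊢)
  first | linear_combination a0 | ring | grind

theorem s138 (c : Cx x1 x2) : v138 x1 x2 = v167 x1 x2 + v25 x1 x2 * v5 x1 x2 := by
  have a0 := s1 c
  try simp only [v0, v1, v2, v3, v5, v12, v24, v25, v138, v167] at a0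
  simp only [v0, v1, v2, v3, v5, v12, v24, v25, v138, v167]
  (try push_cast at a0 ⊢)
  first | linear_combination a0 | ring | grind

theorem bD (c : Cx x1 x2) : v75 x1 x2 = 0 := by
  have hc := c.hc
  have h3 := s3q x1 x2
  simp only [v0, v3, v10, v12, v14, v16, v24, v29, v52, v65, v66, v67, v70, v72, v73, v75] at hc ⊢
  push_cast at hc ⊢
  grind

theorem sD (c : Cx x1 x2) : v55 x1 x2 = v25 x1 x2 * v76 x1 x2 := by
  have h := s55 c
  rw [bD c, zero_add] at h
  exact h

theorem s114 (c : Cx x1 x2) : v114 x1 x2 = v115 x1 x2 + v25 x1 x2 * v120 x1 x2 := by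
  have hA := s86 c
  have hd := sD c
  have hs := c.p108
  have hc : v79 x1 x2 ^ 2 = v78 x1 x2 := by
    rw [v79]; exact Real.sq_sqrt (le_of_lt c.p78)
  have hx : v79 x1 x2 - v77 x1 x2 = v55 x1 x2 * (v108 x1 x2)⁻¹ := by
    have g : v79 x1 x2 ^ 2 - v77 x1 x2 ^ 2 = v55 x1 x2 := by
      rw [hc]; simp only [v0, v1, v30, v31, v32, v51, v52, v53, v54, v55, v77, v78, v108]; push_cast; ring
    have g3 : v108 x1 x2 = v79 x1 x2 + v77 x1 x2 := by
      simp only [v0, v1, v30, v31, v32, v51, v52, v53, v54, v55, v77, v78, v108]; try push_cast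
      try ring
    have g2 : 0 < v79 x1 x2 + v77 x1 x2 := by rw [← g3]; exact hs
    rw [g3]; exact diff_of_sq g g2
  have hy : v107 x1 x2 * (v79 x1 x2 - v77 x1 x2) = v107 x1 x2 * (v55 x1 x2 * (v108 x1 x2)⁻¹) := congrArg (fun z => v107 x1 x2 * z) hx
  have hK : v107 x1 x2 * (v108 x1 x2)⁻¹ * v55 x1 x2 = v107 x1 x2 * (v108 x1 x2)⁻¹ * (v25 x1 x2 * v76 x1 x2) := congrArg (fun z => v107 x1 x2 * (v108 x1 x2)⁻¹ * z) hd
  try simp only [v0, v1, v12, v24, v25, v32, v52, v53, v55, v71, v72, v74, v76, v77, v106, v108, v111, v112, v114, v115, v116, v117, v118, v120] at hA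
  try simp only [v0, v1, v12, v24, v25, v32, v52, v53, v55, v71, v72, v74, v76, v77, v106, v108, v111, v112, v114, v115, v116, v117, v118, v120] at hy
  try simp only [v0, v1, v12, v24, v25, v32, v52, v53, v55, v71, v72, v74, v76, v77, v106, v108, v111, v112, v114, v115, v116, v117, v118, v120] at hK
  simp only [v0, v1, v12, v24, v25, v32, v52, v53, v55, v71, v72, v74, v76, v77, v106, v108, v111, v112, v114, v115, v116, v117, v118, v120]
  (try push_cast at hA hy hK ⊢)
  first | linear_combination -(hA - hy - hK) | grind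

theorem bE (c : Cx x1 x2) : v136 x1 x2 = 0 := by
  have hc := c.hc
  have h3 := s3q x1 x2
  have g0 : v2 x1 x2 ≠ 0 := s3ne x1 x2
  simp only [v0, v3, v9, v10, v12, v14, v16, v24, v29, v125, v128, v129, v132, v134, v136] at hc ⊢
  push_cast at hc ⊢
  grind

theorem hE (c : Cx x1 x2) : v127 x1 x2 = v25 x1 x2 * v135 x1 x2 := by
  have h := s127 c
  rw [bE c, zero_add] at h
  exact h

theorem bS (c : Cx x1 x2) : v164 x1 x2 - v39 x1 x2 - v115 x1 x2 = 0 := by
  have hc := c.hc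
  have h3 := s3q x1 x2
  have g0 := (c.p37).ne'
  have g1 := (c.p98).ne'
  have g2 := (c.p153).ne'
  simp only [v0, v3, v5, v10, v11, v12, v13, v14, v16, v18, v24, v29, v33, v34, v35, v36, v37, v38, v39, v72, v81, v93, v94, v98, v99, v102, v115, v139, v142, v143, v144, v146, v151, v152, v153, v155, v159, v164] at hc g0 g1 g2 ⊢
  push_cast at hc g0 g1 g2 ⊢
  grind

theorem hS (c : Cx x1 x2) : v50 x1 x2 - v39 x1 x2 - v114 x1 x2 = v25 x1 x2 * v166 x1 x2 := by
  have a3 := s50 c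
  have a2 := s114 c
  have b := bS c
  try simp only [v0, v1, v12, v24, v25, v50, v106, v114, v115, v120, v164, v165, v166] at a3
  try simp only [v0, v1, v12, v24, v25, v50, v106, v114, v115, v120, v164, v165, v166] at a2
  try simp only [v0, v1, v12, v24, v25, v50, v106, v114, v115, v120, v164, v165, v166] at b
  try simp only [v0, v1, v12, v24, v25, v50, v106, v114, v115, v120, v164, v165, v166]
  (try push_cast at a3 a2 b ⊢)
  first | linear_combination a3 - a2 + b | grind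

theorem bC (c : Cx x1 x2) : v0 x1 x2 * v164 x1 x2 - v167 x1 x2 * v39 x1 x2 = 0 := by
  have hc := c.hc
  have h3 := s3q x1 x2
  have g0 := (c.p37).ne'
  have g1 := (c.p153).ne'
  simp only [v0, v3, v5, v10, v12, v14, v16, v24, v29, v33, v34, v35, v36, v37, v38, v39, v139, v142, v143, v144, v146, v151, v152, v153, v155, v159, v164, v167] at hc g0 g1 ⊢
  push_cast at hc g0 g1 ⊢
  grind

theorem hC (c : Cx x1 x2) : v0 x1 x2 * v50 x1 x2 - v138 x1 x2 * v39 x1 x2 = v25 x1 x2 * v169 x1 x2 := by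
  have a2 : v0 x1 x2 * v50 x1 x2 = v0 x1 x2 * (v164 x1 x2 + v25 x1 x2 * v165 x1 x2) := congrArg (fun z => v0 x1 x2 * z) (s50 c)
  have a3 : v39 x1 x2 * v138 x1 x2 = v39 x1 x2 * (v167 x1 x2 + v25 x1 x2 * v5 x1 x2) := congrArg (fun z => v39 x1 x2 * z) (s138 c)
  have b := bC c
  try simp only [v0, v1, v2, v3, v5, v12, v24, v25, v50, v138, v164, v165, v167, v168, v169] at a2
  try simp only [v0, v1, v2, v3, v5, v12, v24, v25, v50, v138, v164, v165, v167, v168, v169] at a3
  try simp only [v0, v1, v2, v3, v5, v12, v24, v25, v50, v138, v164, v165, v167, v168, v169] at b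
  simp only [v0, v1, v2, v3, v5, v12, v24, v25, v50, v138, v164, v165, v167, v168, v169]
  (try push_cast at a2 a3 b ⊢)
  first | linear_combination a2 - a3 + b | grind

theorem hT (x1 x2 : ℝ) : v138 x1 x2 = v0 x1 x2 + v137 x1 x2 := by
  simp only [v0, v1, v2, v3, v32, v137, v138]
  push_cast
  ring

theorem hG (c : Cx x1 x2) : v0 x1 x2 * v50 x1 x2 - (-v138 x1 x2) * (-v39 x1 x2) = v25 x1 x2 * v169 x1 x2 := by
  have b := hC c
  try simp only [v0, v1, v2, v3, v12, v24, v25, v32, v50, v106, v114, v120, v137, v138, v165, v166, v169] at b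
  try simp only [v0, v1, v2, v3, v12, v24, v25, v32, v50, v106, v114, v120, v137, v138, v165, v166, v169]
  (try push_cast at b ⊢)
  first | linear_combination b | grind

theorem core (c : Cx x1 x2) (hW : 0 ≤ v25 x1 x2) (hWQ : 0 ≤ v25 x1 x2 * v177 x1 x2) (h1 : 0 ≤ (-v138 x1 x2)) (h2 : 0 ≤ v0 x1 x2) (h3 : (-v138 x1 x2) + v0 x1 x2 ≤ Pool.Agent.StripNear.h0) :
    0 ≤ starn_v (v127 x1 x2) ((-v138 x1 x2)) (v0 x1 x2) (v50 x1 x2) ((-v39 x1 x2)) (v114 x1 x2) := by
  have hD : v50 x1 x2 + (-v39 x1 x2) - v114 x1 x2 = v25 x1 x2 * v166 x1 x2 := by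
    have b := hS c
    linear_combination b
  have k := starn_ge hW h1 h2 h3 (hE c) hD (hG c)
  have f0 : (-v138 x1 x2) = v176 x1 x2 := by
    simp only [v0, v1, v2, v3, v138, v176]
    try (push_cast; ring)
  refine le_trans hWQ (le_trans (le_of_eq ?_) k)
  rw [v177]
  rw [f0]

end Pool.Agent.Strip051.LB.ChB00V2_pm_011
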